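import Mathlib

namespace Pool.Agent.Results.MP_390115_co.SinglyExponential

/-- `P` contains every ordered set with at most `n` elements as a covering subset: there is an
order embedding `f : Q → P` (so `Q` is order-isomorphic to its image with the induced order)
carrying covers of `Q` to covers of `P`. -/
def Universal (n : ℕ) (P : Type) [PartialOrder P] : Prop :=
  ∀ (Q : Type) [PartialOrder Q] [Fintype Q], Fintype.card Q ≤ n →
    ∃ f : Q ↪o P, ∀ x y : Q, x ⋖ y → f x ⋖ f y

/-- the sizes of finite ordered sets containing all `≤ n`-element ordered sets as covering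
subsets -/
def Sizes (n : ℕ) : Set ℕ :=
  {m | ∃ (P : Type) (_ : PartialOrder P) (_ : Fintype P), Fintype.card P = m ∧ Universal n P}

/-- the number `b_n` -/
noncomputable def b (n : ℕ) : ℕ := sInf (Sizes n)

/-- the universal ordered set: a number `j < n` with a label in `{0, 1, 2}` for each `i < j` -/
def U (n : ℕ) : Type := (j : Fin n) × (Fin j → Fin 3)

instance (n : ℕ) : Fintype (U n) := inferInstanceAs (Fintype ((j : Fin n) × (Fin j → Fin 3)))

/-- the label extended by `0` -/
def ext {n : ℕ} (a : U n) (t : ℕ) : ℕ := if h : t < a.1 then (a.2 ⟨t, h⟩ : ℕ) else 0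

/-- strict order -/
def lt {n : ℕ} (a c : U n) : Prop := ext c a.1 ≠ 0 ∧ ∀ t, ext a t ≠ 0 → ext c t = 1

theorem ext_self {n : ℕ} (a : U n) : ext a a.1 = 0 := by simp [ext]

theorem lt_irrefl {n : ℕ} (a : U n) : ¬ lt a a := fun h => h.1 (ext_self a)

theorem lt_trans {n : ℕ} {a c e : U n} (h1 : lt a c) (h2 : lt c e) : lt a e := by
  refine ⟨?_, fun t ht => ?_⟩
  · rw [h2.2 _ h1.1]; exact one_ne_zero
  · apply h2.2
    rw [h1.2 t ht]; exact one_ne_zero

instance (n : ℕ) : PartialOrder (U n) where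
  le a c := a = c ∨ lt a c
  lt a c := lt a c
  le_refl a := Or.inl rfl
  le_trans a c e h1 h2 := by
    rcases h1 with rfl | h1
    · exact h2
    · rcases h2 with rfl | h2
      · exact Or.inr h1
      · exact Or.inr (lt_trans h1 h2)
  lt_iff_le_not_ge a c := by
    constructor
    · intro h
      refine ⟨Or.inr h, ?_⟩
      rintro (rfl | h')
      · exact lt_irrefl _ h
      · exact lt_irrefl _ (lt_trans h h')
    · rintro ⟨rfl | h, h2⟩
      · exact absurd (Or.inl rfl) h2
      · exact h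
  le_antisymm a c h1 h2 := by
    rcases h1 with rfl | h1
    · rfl
    · rcases h2 with rfl | h2
      · rfl
      · exact absurd (lt_trans h1 h2) (lt_irrefl _)

theorem U_lt {n : ℕ} (a c : U n) : a < c ↔ lt a c := Iff.rfl

theorem geom (n : ℕ) : 2 * ∑ i ∈ Finset.range n, 3 ^ i + 1 = 3 ^ n := by
  induction n with
  | zero => simp
  | succ n ih => rw [Finset.sum_range_succ, pow_succ]; omega

theorem card_U (n : ℕ) : 2 * Fintype.card (U n) + 1 = 3 ^ n := by
  have h : Fintype.card (U n) = ∑ j : Fin n, 3 ^ (j : ℕ) := by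
    refine (Fintype.card_sigma (α := fun j : Fin n => (Fin j → Fin 3))).trans ?_
    apply Finset.sum_congr rfl
    intro j _
    simp
  rw [h, Fin.sum_univ_eq_sum_range (fun i => 3 ^ i) n]
  exact geom n

theorem universal_U (n : ℕ) : Universal n (U n) := by
  classical
  intro Q _ _ hQ
  letI : Fintype (LinearExtension Q) := ‹Fintype Q›
  let e' := monoEquivOfFin (LinearExtension Q) (rfl : Fintype.card (LinearExtension Q) = _)
  let e : Q → ℕ := fun x => (e'.symm (toLinearExtension x) : ℕ)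
  have hen : ∀ x, e x < n := fun x => lt_of_lt_of_le (e'.symm (toLinearExtension x)).2 hQ
  have hinj : ∀ x y, e x = e y → x = y := by
    intro x y h
    exact e'.symm.injective (Fin.ext h)
  have hmono : ∀ x y : Q, x < y → e x < e y := by
    intro x y hxy
    have h1 : toLinearExtension x ≤ toLinearExtension y := toLinearExtension.monotone hxy.le
    have h2 : e x ≤ e y := e'.symm.monotone h1
    rcases Nat.lt_or_ge (e x) (e y) with h | h
    · exact h
    · exact absurd (hinj x y (le_antisymm h2 h)) hxy.ne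
  let f : Q → U n := fun x => ⟨⟨e x, hen x⟩, fun t =>
    if ∃ z, e z = t ∧ z ⋖ x then 2 else if ∃ z, e z = t ∧ z < x then 1 else 0⟩
  have hext0 : ∀ x t, ext (f x) t ≠ 0 → ∃ z, e z = t ∧ z < x := by
    intro x t h
    by_contra hc
    apply h
    unfold ext
    split_ifs with ht
    · have h1 : ¬ ∃ z, e z = t ∧ z ⋖ x := fun ⟨z, hz1, hz2⟩ => hc ⟨z, hz1, hz2.lt⟩
      simp [f, h1, hc]
    · rfl
  have hext2 : ∀ x z, z ⋖ x → ext (f x) (e z) = 2 := by
    intro x z h
    have h1 : e z < e x := hmono _ _ h.lt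
    have h2 : ∃ z', e z' = e z ∧ z' ⋖ x := ⟨z, rfl, h⟩
    unfold ext
    rw [dif_pos h1]
    simp only [f]
    rw [if_pos h2]; rfl
  have hext1 : ∀ x z, z < x → ¬ z ⋖ x → ext (f x) (e z) = 1 := by
    intro x z h hn
    have h1 : e z < e x := hmono _ _ h
    have h2 : ¬ ∃ z', e z' = e z ∧ z' ⋖ x := by
      rintro ⟨z', hz1, hz2⟩
      rw [hinj _ _ hz1] at hz2
      exact hn hz2
    have h3 : ∃ z', e z' = e z ∧ z' < x := ⟨z, rfl, h⟩
    unfold ext
    rw [dif_pos h1]
    simp only [f]
    rw [if_neg h2, if_pos h3]; rfl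
  have hlt : ∀ x y, lt (f x) (f y) ↔ x < y := by
    intro x y
    constructor
    · intro h
      obtain ⟨z, hz1, hz2⟩ := hext0 y (e x) h.1
      rwa [hinj _ _ hz1] at hz2
    · intro h
      refine ⟨?_, ?_⟩
      · show ext (f y) (e x) ≠ 0
        by_cases hc : x ⋖ y
        · rw [hext2 _ _ hc]; norm_num
        · rw [hext1 _ _ h hc]; norm_num
      · intro t ht
        obtain ⟨z, rfl, hz⟩ := hext0 x t ht
        apply hext1 _ _ (hz.trans h)
        intro hc
        exact hc.2 hz h
  refine ⟨⟨⟨f, ?_⟩, ?_⟩, ?_⟩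
  · intro x y h
    apply hinj
    have := congrArg (fun a : U n => (a.1 : ℕ)) h
    exact this
  · intro x y
    show (f x = f y ∨ lt (f x) (f y)) ↔ x ≤ y
    rw [hlt]
    constructor
    · rintro (h | h)
      · have h2 : e x = e y := congrArg (fun a : U n => (a.1 : ℕ)) h
        exact (hinj _ _ h2).le
      · exact h.le
    · intro h
      rcases h.eq_or_lt with rfl | h
      · exact Or.inl rfl
      · exact Or.inr h
  · intro x y h
    refine ⟨(hlt x y).2 h.lt, ?_⟩
    intro c h1 h2
    have h3 : ext c (e x) ≠ 0 := h1.1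
    have h4 := h2.2 _ h3
    have h5 := hext2 _ _ h
    change ext (f y) (e x) = 1 at h4
    omega

/-- the bipartite ordered set given by a relation -/
def BP (h k : ℕ) (_ : Fin h → Fin k → Bool) : Type := Fin h ⊕ Fin k

instance (h k : ℕ) (R) : Fintype (BP h k R) := inferInstanceAs (Fintype (Fin h ⊕ Fin k))

instance (h k : ℕ) (R : Fin h → Fin k → Bool) : PartialOrder (BP h k R) where
  le a c := a = c ∨ ∃ i j, a = Sum.inl i ∧ c = Sum.inr j ∧ R i j = true
  le_refl a := Or.inl rfl
  le_trans a c e h1 h2 := by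
    rcases h1 with rfl | ⟨i, j, rfl, rfl, hij⟩
    · exact h2
    · rcases h2 with rfl | ⟨i', j', h3, _, _⟩
      · exact Or.inr ⟨i, j, rfl, rfl, hij⟩
      · exact absurd h3 (by simp)
  le_antisymm a c h1 h2 := by
    rcases h1 with rfl | ⟨i, j, rfl, rfl, hij⟩
    · rfl
    · rcases h2 with h2 | ⟨i', j', h3, _, _⟩
      · exact h2.symm
      · exact absurd h3 (by simp)

theorem lower (n : ℕ) (P : Type) [PartialOrder P] [Fintype P] (hP : Universal n P) :
    2 ^ (n / 2 * ((n + 1) / 2)) ≤ (Fintype.card P) ^ n := by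
  classical
  have hsum : n / 2 + (n + 1) / 2 = n := by omega
  have hcard : ∀ R, Fintype.card (BP (n / 2) ((n + 1) / 2) R) ≤ n := by
    intro R
    have : Fintype.card (BP (n / 2) ((n + 1) / 2) R) = n / 2 + (n + 1) / 2 :=
      (Fintype.card_sum (α := Fin (n / 2)) (β := Fin ((n + 1) / 2))).trans (by simp)
    omega
  choose f hf using fun R => hP (BP (n / 2) ((n + 1) / 2) R) (hcard R)
  let F : (Fin (n / 2) → Fin ((n + 1) / 2) → Bool) → (Fin (n / 2) ⊕ Fin ((n + 1) / 2) → P) :=
    fun R x => f R x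
  have hinj : Function.Injective F := by
    intro R S h
    have key : ∀ T i j, T i j = true ↔ F T (Sum.inl i) ≤ F T (Sum.inr j) := by
      intro T i j
      have h1 : (f T) (Sum.inl i) ≤ (f T) (Sum.inr j) ↔
          @LE.le (BP (n / 2) ((n + 1) / 2) T) _ (Sum.inl i) (Sum.inr j) := (f T).le_iff_le
      show _ ↔ (f T) (Sum.inl i) ≤ (f T) (Sum.inr j)
      rw [h1]
      constructor
      · intro h2; exact Or.inr ⟨i, j, rfl, rfl, h2⟩
      · rintro (h2 | ⟨i', j', h3, h4, h5⟩)
        · exact absurd h2 (by simp)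
        · cases h3; cases h4; exact h5
    funext i j
    rw [Bool.eq_iff_iff, key R, key S, h]
  have := Fintype.card_le_of_injective F hinj
  simp only [Fintype.card_fun, Fintype.card_fin, Fintype.card_bool, Fintype.card_sum] at this
  rw [← pow_mul, hsum] at this
  calc 2 ^ (n / 2 * ((n + 1) / 2)) = 2 ^ ((n + 1) / 2 * (n / 2)) := by rw [mul_comm]
    _ ≤ _ := this

/-- `b_n` is attained, `2 b_n + 1 ≤ 3^n`, and `2^⌊n²/4⌋ ≤ b_n^n`. Hence `(log₂ b_n)/n` stays
between two positive constants. -/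
theorem result :
    (∀ n : ℕ, b n ∈ Sizes n) ∧ (∀ n : ℕ, 2 * b n + 1 ≤ 3 ^ n) ∧
    (∀ n : ℕ, 2 ^ (n / 2 * ((n + 1) / 2)) ≤ b n ^ n) ∧
    (∀ n : ℕ, 2 ≤ n → (1 / 6 : ℝ) * n ≤ Real.logb 2 (b n) ∧
      Real.logb 2 (b n) ≤ Real.logb 2 3 * n) := by
  have hne : ∀ n, (Sizes n).Nonempty := fun n =>
    ⟨_, U n, inferInstance, inferInstance, rfl, universal_U n⟩
  have hmem : ∀ n, b n ∈ Sizes n := fun n => Nat.sInf_mem (hne n)
  have hup : ∀ n : ℕ, 2 * b n + 1 ≤ 3 ^ n := by
    intro n
    have h1 : b n ≤ Fintype.card (U n) :=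
      Nat.sInf_le ⟨U n, inferInstance, inferInstance, rfl, universal_U n⟩
    have h2 := card_U n
    omega
  have hlow : ∀ n : ℕ, 2 ^ (n / 2 * ((n + 1) / 2)) ≤ b n ^ n := by
    intro n
    obtain ⟨P, i1, i2, hc, hu⟩ := hmem n
    have := lower n P hu
    rwa [hc] at this
  refine ⟨hmem, hup, hlow, ?_⟩
  intro n hn
  have hb1 : 1 ≤ b n := by
    by_contra h
    have h0 : b n = 0 := by omega
    have h1 := hlow n
    rw [h0, zero_pow (by omega)] at h1
    have h2 : 0 < 2 ^ (n / 2 * ((n + 1) / 2)) := by positivity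
    omega
  have hbpos : (0 : ℝ) < b n := by exact_mod_cast hb1
  constructor
  · have h1 : ((2 : ℝ) ^ (n / 2 * ((n + 1) / 2))) ≤ (b n : ℝ) ^ n := by exact_mod_cast hlow n
    have h2 := Real.logb_le_logb_of_le (b := 2) (by norm_num) (by positivity) h1
    rw [Real.logb_pow, Real.logb_pow, Real.logb_self_eq_one (by norm_num), mul_one] at h2
    have h3 : n * n ≤ 6 * (n / 2 * ((n + 1) / 2)) := by
      rcases Nat.even_or_odd' n with ⟨k, rfl | rfl⟩
      · have e1 : 2 * k / 2 = k := by omega
        have e2 : (2 * k + 1) / 2 = k := by omega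
        rw [e1, e2]; nlinarith
      · have e1 : (2 * k + 1) / 2 = k := by omega
        have e2 : (2 * k + 1 + 1) / 2 = k + 1 := by omega
        rw [e1, e2]
        have hk : 1 ≤ k := by omega
        nlinarith
    have h4 : (n : ℝ) * n ≤ 6 * ((n / 2 * ((n + 1) / 2) : ℕ) : ℝ) := by exact_mod_cast h3
    have h5 : (n : ℝ) * n ≤ 6 * (n * Real.logb 2 (b n)) := by linarith
    have hnpos : (0 : ℝ) < n := by
      have : 0 < n := by omega
      exact_mod_cast this
    have h6 : (n : ℝ) ≤ 6 * Real.logb 2 (b n) := by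
      apply le_of_mul_le_mul_left _ hnpos
      linarith
    linarith
  · have h1 : (b n : ℝ) ≤ 3 ^ n := by
      have : b n ≤ 3 ^ n := by have := hup n; omega
      exact_mod_cast this
    have h2 := Real.logb_le_logb_of_le (b := 2) (by norm_num) hbpos h1
    rw [Real.logb_pow] at h2
    linarith

end Pool.Agent.Results.MP_390115_co.SinglyExponential
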